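import Pool.Agent.Run7.h886.TG.Port

/-!
# The Selmer group conjecture for a positive proportion of all the quadratic twists of a Jacobian of any genus

Let `k` be a finite field of odd characteristic with `q` elements, `K = k(t)`, `g ≥ 1`, and let
`f = x ^ (2 g + 1) + f_{2 g - 1} x ^ (2 g - 1) + ... + f_0` be a polynomial over `k[t]` with
`deg f_j ≤ 2 N (2 g + 1 - j)`, `N ≥ 1`, such that the discriminant of `f` is a squarefree polynomial in `t` and the
polynomial over `k` formed by the coefficients of `t ^ (2 N (2 g + 1 - j))` in the `f_j` is irreducible. If the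
characteristic is larger than `2 g + 1`, these `f` are a positive proportion of all the `f` with
`deg f_j ≤ 2 N (2 g + 1 - j)`. For a squarefree `D` in `k[t]` let `J_D` be the Jacobian of the curve
`D y ^ 2 = f(x)` of genus `g` over `K`. These are all the quadratic twists of `J_1`.

**Theorem.** There is `c > 0` such that for all large `m` and all `u ≠ 0` in `k` at least `c q ^ m` of the `q ^ m`
polynomials `D` of degree `m` with leading coefficient `u` are squarefree and prime to the discriminant of `f`, and
`J = J_D` has the following properties.

* All the Selmer groups `Sel(J, 2 ^ n)` over `K` are zero, even without a condition at the place at infinity. So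
  `Sel(J, ℤ_2) = 0`.
* Multiplication by two is bijective on `J(K)`, so `J(K) ⊗ ℤ_2 = 0`.
* The 2-primary part of the Tate-Shafarevich group of `J` is zero, so `T_2 Sha(J) = 0`.

So for a positive proportion of ALL the quadratic twists of a fixed Jacobian, in the natural ordering by the degree
and over a fixed finite field, the map `J(K) ⊗ ℤ_2 → Sel(J, ℤ_2)` of the question is an isomorphism; and as the
2-primary part of `Sha(J)` is finite, `Sha(J)` is finite (Artin and Tate, Milne; Schneider, Bauer, Kato and
Trihan), so that the question has a positive answer for these `J` and ALL primes `l`, also for the characteristic.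
(This consequence is not formalised.) The starting results over finite `k` are about some twist of each of many
curves (all `f` ordered by height, `SelmerOverTwoCovers`) or about curves with rational branch points.

`J(L)` is the Picard group of the affine coordinate ring `L[x, y] / (y ^ 2 - F)`, because the only point at
infinity of the curve is rational, and the Selmer and Tate-Shafarevich groups are given by continuous cocycles of
the absolute Galois group of `K` with values in `J(K^sep)` (`Pool/Agent/N874/Jac/Def.lean`). The curve
`D y ^ 2 = f(x)` has the equation `y ^ 2 = F(x)` with `F = D ^ (2 g + 1) f(x / D) = f.scaleRoots D`.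

This is a theorem on the groups of the question deduced from the theorem of project TG (helper784, with parts by
helpers 68, 81, 286, 382, 646, 688, 711, 760, 779, 781, 811, 886, 908, 973, and the libraries TS (helper875), PJ and JB
(helper352) and PP (helper874)), see `Results/MP_60d5ce_nt/PositiveProportionOfTwists.lean`, where the proof is
described: there are no conditions at the primes outside `D`, one more prime `Q` in `D` changes the 2-Selmer group
by a reciprocity law, the average of its order over the next prime is estimated by character sums over the curves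
whose points are the factorisations of `f` at `t` (the geometric Galois group of `f` is the symmetric group), and
the last primes are chosen to kill the group. The step to the Selmer groups is in `N844/QF/Sel.lean` (helper844).
-/

set_option autoImplicit false
set_option linter.all false

open Polynomial Filter IsDedekindDomain
open scoped Classical

namespace Pool.Agent.Results.MP_1bdb59_nt.PositiveProportionOfTwists

open Pool.Agent.N874.Jac (J mapJ Cochain Cocycle TrivialAtPrimes UniquelyTwoDivisible
  ShaTwoTrivial)

/-- The Selmer groups `Sel(J, 2 ^ n)` of the Jacobian `J` of `y ^ 2 = F(x)` over `K` are zero, even without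
conditions at the places which do not belong to `R`: for all `n`, every continuous cocycle with values in
`J[2 ^ n]` whose class in `H ^ 1 (K, J)` is zero over the completions of `K` at all maximal ideals of `R` is the
coboundary of an element of `J[2 ^ n]` (`J` is written multiplicatively). -/
def SelmerZero (R : Type) {K : Type} [Field K] [CommRing R] [IsDedekindDomain R] [Algebra R K]
    [IsFractionRing R K] (F : K[X]) : Prop :=
  ∀ (n : ℕ) (c : Cochain F), Cocycle c → (∀ σ, c σ ^ 2 ^ n = 1) → TrivialAtPrimes R c →
    ∃ P : J F (SeparableClosure K), P ^ 2 ^ n = 1 ∧ ∀ σ, c σ = mapJ F σ.toAlgHom P / P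

section defs

variable {k : Type} [Field k]

/-- The discriminant of the monic polynomial `f` of degree `2 g + 1` in `x` over `k[t]`, up to the sign: the
resultant of `f` and its derivative. -/
noncomputable def discriminant (g : ℕ) (f : k[X][X]) : k[X] :=
  f.resultant (derivative f) (2 * g + 1) (2 * g)

/-- `f = x ^ (2 g + 1) + f_{2 g - 1} x ^ (2 g - 1) + ... + f_0` with `deg f_j ≤ M (2 g + 1 - j)`. -/
structure HasHeight (g M : ℕ) (f : k[X][X]) : Prop where
  monic : f.Monic
  degree : f.natDegree = 2 * g + 1
  trace : f.coeff (2 * g) = 0
  height : ∀ j ≤ 2 * g, (f.coeff j).natDegree ≤ M * (2 * g + 1 - j)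

/-- The reduction of `f` at infinity, the polynomial `x ^ (2 g + 1) + ∑ r_j x ^ j` over `k` where `r_j` is the
coefficient of `t ^ (M (2 g + 1 - j))` in `f_j`. -/
noncomputable def atInfinity (g M : ℕ) (f : k[X][X]) : k[X] :=
  X ^ (2 * g + 1) + ∑ j ∈ Finset.range (2 * g + 1), C ((f.coeff j).coeff (M * (2 * g + 1 - j))) * X ^ j

/-- The family: squarefree discriminant, irreducible reduction at infinity. -/
structure InFamily (g N : ℕ) (f : k[X][X]) : Prop extends HasHeight g (2 * N) f where
  inert : Irreducible (atInfinity g (2 * N) f)
  squarefree : Squarefree (discriminant g f)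

variable (K : Type) [Field K] [Algebra k[X] K] [IsFractionRing k[X] K]

/-- The monic equation `y ^ 2 = D ^ (2 g + 1) f(x / D)` of the quadratic twist `D y ^ 2 = f(x)` over
`K = k(t)`. -/
noncomputable def twist (f : k[X][X]) (D : k[X]) : K[X] := (f.scaleRoots D).map (algebraMap k[X] K)

/-- The polynomials `D` of degree `m` with leading coefficient `u` which are squarefree and prime to the
discriminant of `f` and for which the Jacobian `J` of the twist of `y ^ 2 = f(x)` by `D` is such that
multiplication by two is bijective on `J(K)`, the 2-primary part of the Tate-Shafarevich group is zero and all the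
Selmer groups `Sel(J, 2 ^ n)` are zero. -/
def GoodTwists (g : ℕ) (f : k[X][X]) (u : k) (m : ℕ) : Set k[X] :=
  {D | D.leadingCoeff = u ∧ D.natDegree = m ∧ Squarefree D ∧ IsCoprime D (discriminant g f) ∧
    UniquelyTwoDivisible (twist K f D) ∧ ShaTwoTrivial (twist K f D) k[X] ∧
    SelmerZero k[X] (twist K f D)}

end defs

/-- **Theorem.** Let `k` be a finite field of odd characteristic with `q` elements, `K = k(t)`, `g ≥ 1`.
(1) For every `f` of the family (monic of degree `2 g + 1` over `k[t]`, `f_{2 g} = 0`,
`deg f_j ≤ 2 N (2 g + 1 - j)`, `N ≥ 1`, with squarefree discriminant and irreducible reduction at infinity) there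
is `c > 0` such that for all large `m` and all `u ≠ 0` in `k` at least `c q ^ m` of the `q ^ m` polynomials `D` over
`k` of degree `m` with leading coefficient `u` are squarefree, prime to the discriminant, and the Jacobian `J` of
`D y ^ 2 = f(x)` over `K` is such that multiplication by two is bijective on `J(K)`, the 2-primary part of the
Tate-Shafarevich group is zero and all the Selmer groups `Sel(J, 2 ^ n)` are zero.
(2) If the characteristic is larger than `2 g + 1`, a positive proportion of all `f` with
`deg f_j ≤ 2 N (2 g + 1 - j)` belongs to the family. -/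
theorem result (g : ℕ) (hg : 1 ≤ g) (k : Type) [Field k] [Finite k] (h2 : (2 : k) ≠ 0)
    (K : Type) [Field K] [Algebra k[X] K] [IsFractionRing k[X] K] :
    (∀ (N : ℕ) (f : k[X][X]), 1 ≤ N → InFamily g N f →
      ∃ c : ℝ, 0 < c ∧ ∀ᶠ m : ℕ in atTop, ∀ u : k, u ≠ 0 →
        c * (Nat.card k : ℝ) ^ m ≤ ((GoodTwists K g f u m).ncard : ℝ)) ∧
    (((2 * g + 1).factorial : k) ≠ 0 → ∃ c : ℝ, 0 < c ∧ ∀ᶠ N : ℕ in atTop,
      0 < {f : k[X][X] | HasHeight g (2 * N) f}.ncard ∧
      c * ({f : k[X][X] | HasHeight g (2 * N) f}.ncard : ℝ) ≤
        ({f : k[X][X] | InFamily g N f}.ncard : ℝ)) := by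
  have hh : ∀ (M : ℕ) (f : k[X][X]), HasHeight g M f ↔ Pool.Agent.N352.PJ.Ht g M f := fun M f =>
    ⟨fun h => ⟨h.monic, h.degree, h.trace, h.height⟩, fun h => ⟨h.mon, h.deg, h.tr, h.ht⟩⟩
  have hI : ∀ (N : ℕ) (f : k[X][X]), InFamily g N f ↔ Run7.h886.TG.InFam g N f := fun N f =>
    ⟨fun h => ⟨(hh _ _).1 h.toHasHeight, h.inert, h.squarefree⟩,
      fun h => ⟨(hh _ _).2 h.ht, h.inert, h.sq⟩⟩
  refine ⟨fun N f hN hf => ?_, fun hp => ?_⟩
  · obtain ⟨c, hc, h⟩ := Run7.h886.TG.tw_all K h2 hg hN ((hI N f).1 hf)
    refine ⟨c, hc, ?_⟩
    filter_upwards [h] with m hm u hu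
    refine (hm u hu).trans ?_
    have hfin : (GoodTwists K g f u m).Finite :=
      (Run7.h886.TG.fin_deg m).subset fun D hD => hD.2.1
    have hsub : Run7.h886.TG.GoodTw K g f u m ⊆ GoodTwists K g f u m :=
      fun D hD => ⟨hD.1, hD.2.1, hD.2.2.1, hD.2.2.2.1, hD.2.2.2.2.2.1, hD.2.2.2.2.2.2.1,
        hD.2.2.2.2.2.2.2⟩
    exact_mod_cast Set.ncard_le_ncard hsub hfin
  · obtain ⟨c, hc, h⟩ := Run7.h886.TG.fam_pos (k := k) g hg hp
    refine ⟨c, hc, ?_⟩
    filter_upwards [h] with N hN
    have e1 : {f : k[X][X] | HasHeight g (2 * N) f} =
        {f : k[X][X] | Pool.Agent.N352.PJ.Ht g (2 * N) f} := Set.ext fun f => hh _ _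
    have e2 : {f : k[X][X] | InFamily g N f} = {f : k[X][X] | Run7.h886.TG.InFam g N f} :=
      Set.ext fun f => hI _ _
    rw [e1, e2]
    exact hN

end Pool.Agent.Results.MP_1bdb59_nt.PositiveProportionOfTwists
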