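import Pool.Agent.Run7.h886.TG.Port

/-!
# Finite Tate-Shafarevich groups for a positive proportion of all the quadratic twists of a Jacobian of any genus

Let `k` be a finite field of odd characteristic with `q` elements, `K = k(t)`, `g ≥ 1`, and let
`f = x ^ (2 g + 1) + f_{2 g - 1} x ^ (2 g - 1) + ... + f_0` be a polynomial over `k[t]` with
`deg f_j ≤ 2 N (2 g + 1 - j)`, `N ≥ 1`, such that the discriminant of `f` is a squarefree polynomial in `t` and the
polynomial over `k` formed by the coefficients of `t ^ (2 N (2 g + 1 - j))` in the `f_j` is irreducible. If the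
characteristic is larger than `2 g + 1`, these `f` are a positive proportion of all the `f` with
`deg f_j ≤ 2 N (2 g + 1 - j)`. For a squarefree `D` in `k[t]` let `A = A_D` be the Jacobian of the curve
`D y ^ 2 = f(x)`, an abelian variety of dimension `g` over `K`. These are all the quadratic twists of `A_1`.

**Theorem.** There is `c > 0` such that for all large `m` and all `u ≠ 0` in `k` at least `c q ^ m` of the `q ^ m`
polynomials `D` of degree `m` with leading coefficient `u` are squarefree and prime to the discriminant of `f`, and
for `A = A_D`

* every element of 2-power order of `H ^ 1 (K, A)` which is zero over the completions of `K` at all the places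
  different from infinity is zero; so the 2-primary part of `Sha(A/K)` is zero;
* multiplication by two is bijective on `A(K)`.

So for a positive proportion of ALL the quadratic twists `A` of a fixed abelian variety, in the natural ordering by
the degree and over a fixed finite field, the question has a positive answer for `A` over `K`: the group `Sha(A/K)`
is finite (the 2-primary part is finite: Tate, Milne, Kato and Trihan, see the section on what is known), of odd
order; `A(K)` is finite of odd order, the rank is zero and the `L`-function does not vanish at `s = 1`. (This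
consequence is not formalised.)

The starting results on this page are about elliptic curves and Jacobians with rational 2-torsion points, or about
constant, Legendre and superelliptic families (`ManyTwistsInTowers`: `c q ^ n / n ^ (1 - δ)` twists by polynomials
of degree `n`, of elliptic curves with a point of order two). Here `f` is irreducible over `k'(t)`, `k'` the algebraic
closure of `k`, with the symmetric group as Galois group, so `A` has no point of order two over
`k'(t)`, and the twists are a positive proportion of all.

`A(F)` is the Picard group of the affine coordinate ring `F[x, y] / (y ^ 2 - F(x))`, because the only point at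
infinity of the curve is rational, and the Tate-Shafarevich group is given by continuous cocycles of the absolute
Galois group of `K` with values in `A(K^sep)` (`Pool/Agent/N874/Jac/Def.lean`). The curve `D y ^ 2 = f(x)` has the
equation `y ^ 2 = F(x)` with `F = D ^ (2 g + 1) f(x / D) = f.scaleRoots D`.

This is the theorem of project TG (helper784, with parts by helpers 68, 81, 286, 382, 646, 688, 711, 760, 779, 781,
811, 886, 908, 973, and the libraries TS (helper875), PJ and JB (helper352) and PP (helper874)) for the objects of
this page, see `Results/MP_60d5ce_nt/PositiveProportionOfTwists.lean`, where the proof is described: one more prime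
`Q` in `D` changes the 2-Selmer group by a reciprocity law, the average of its order over the next prime is
estimated by character sums over the curves whose points are the factorisations of `f` at `t`, and the last primes
are chosen to kill the group.
-/

set_option autoImplicit false
set_option linter.all false

open Polynomial Filter IsDedekindDomain
open scoped Classical

namespace Pool.Agent.Results.MP_72e2e6_nt.PositiveProportionOfTwists

open Pool.Agent.N874.Jac (J Cochain Cocycle Coboundary power TrivialAtPrimes)

/-- Multiplication by two is bijective on `A(K)`, `A` the Jacobian of `y ^ 2 = F(x)` (written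
multiplicatively), and every element of 2-power order of `H ^ 1 (K, A)` which is zero over the completions of `K` at
all maximal ideals of the Dedekind ring `R` is zero: every continuous cocycle `c` of the absolute Galois group of
`K` with values in `A(K^sep)` whose class is zero over these completions and whose power `c ^ (2 ^ n)` is a coboundary
is a coboundary. -/
def NoTwoPart (R : Type) {K : Type} [Field K] [CommRing R] [IsDedekindDomain R] [Algebra R K]
    [IsFractionRing R K] (F : K[X]) : Prop :=
  (Function.Bijective fun P : J F K => P ^ 2) ∧
    ∀ (c : Cochain F) (n : ℕ), Cocycle c → TrivialAtPrimes R c → Coboundary (power c (2 ^ n)) →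
      Coboundary c

section defs

variable {k : Type} [Field k]

/-- The discriminant of the monic polynomial `f` of degree `2 g + 1` in `x` over `k[t]`, up to the sign: the
resultant of `f` and its derivative. -/
noncomputable def discriminant (g : ℕ) (f : k[X][X]) : k[X] :=
  f.resultant (derivative f) (2 * g + 1) (2 * g)

/-- `f = x ^ (2 g + 1) + f_{2 g - 1} x ^ (2 g - 1) + ... + f_0` with `deg f_j ≤ M (2 g + 1 - j)`. -/
structure HasHeight (g M : ℕ) (f : k[X][X]) : Prop where
  monic : f.Monic
  degree : f.natDegree = 2 * g + 1
  trace : f.coeff (2 * g) = 0
  height : ∀ j ≤ 2 * g, (f.coeff j).natDegree ≤ M * (2 * g + 1 - j)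

/-- The reduction of `f` at infinity, the polynomial `x ^ (2 g + 1) + ∑ r_j x ^ j` over `k` where `r_j` is the
coefficient of `t ^ (M (2 g + 1 - j))` in `f_j`. -/
noncomputable def atInfinity (g M : ℕ) (f : k[X][X]) : k[X] :=
  X ^ (2 * g + 1) + ∑ j ∈ Finset.range (2 * g + 1), C ((f.coeff j).coeff (M * (2 * g + 1 - j))) * X ^ j

/-- The family: squarefree discriminant, irreducible reduction at infinity. -/
structure InFamily (g N : ℕ) (f : k[X][X]) : Prop extends HasHeight g (2 * N) f where
  inert : Irreducible (atInfinity g (2 * N) f)
  squarefree : Squarefree (discriminant g f)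

variable (K : Type) [Field K] [Algebra k[X] K] [IsFractionRing k[X] K]

/-- The monic equation `y ^ 2 = D ^ (2 g + 1) f(x / D)` of the quadratic twist `D y ^ 2 = f(x)` over
`K = k(t)`. -/
noncomputable def twist (f : k[X][X]) (D : k[X]) : K[X] := (f.scaleRoots D).map (algebraMap k[X] K)

/-- The polynomials `D` of degree `m` with leading coefficient `u` which are squarefree and prime to the
discriminant of `f` and for which the Jacobian `A` of the twist of `y ^ 2 = f(x)` by `D` is such that
multiplication by two is bijective on `A(K)` and the 2-primary part of the Tate-Shafarevich group is zero. -/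
def GoodTwists (g : ℕ) (f : k[X][X]) (u : k) (m : ℕ) : Set k[X] :=
  {D | D.leadingCoeff = u ∧ D.natDegree = m ∧ Squarefree D ∧ IsCoprime D (discriminant g f) ∧
    NoTwoPart k[X] (twist K f D)}

end defs

/-- **Theorem.** Let `k` be a finite field of odd characteristic with `q` elements, `K = k(t)`, `g ≥ 1`.
(1) For every `f` of the family (monic of degree `2 g + 1` over `k[t]`, `f_{2 g} = 0`,
`deg f_j ≤ 2 N (2 g + 1 - j)`, `N ≥ 1`, with squarefree discriminant and irreducible reduction at infinity) there
is `c > 0` such that for all large `m` and all `u ≠ 0` in `k` at least `c q ^ m` of the `q ^ m` polynomials `D` over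
`k` of degree `m` with leading coefficient `u` are squarefree, prime to the discriminant, and the Jacobian `A` of
`D y ^ 2 = f(x)` over `K` is such that multiplication by two is bijective on `A(K)` and the 2-primary part of the
Tate-Shafarevich group of `A` over `K` is zero.
(2) If the characteristic is larger than `2 g + 1`, a positive proportion of all `f` with
`deg f_j ≤ 2 N (2 g + 1 - j)` belongs to the family. -/
theorem result (g : ℕ) (hg : 1 ≤ g) (k : Type) [Field k] [Finite k] (h2 : (2 : k) ≠ 0)
    (K : Type) [Field K] [Algebra k[X] K] [IsFractionRing k[X] K] :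
    (∀ (N : ℕ) (f : k[X][X]), 1 ≤ N → InFamily g N f →
      ∃ c : ℝ, 0 < c ∧ ∀ᶠ m : ℕ in atTop, ∀ u : k, u ≠ 0 →
        c * (Nat.card k : ℝ) ^ m ≤ ((GoodTwists K g f u m).ncard : ℝ)) ∧
    (((2 * g + 1).factorial : k) ≠ 0 → ∃ c : ℝ, 0 < c ∧ ∀ᶠ N : ℕ in atTop,
      0 < {f : k[X][X] | HasHeight g (2 * N) f}.ncard ∧
      c * ({f : k[X][X] | HasHeight g (2 * N) f}.ncard : ℝ) ≤
        ({f : k[X][X] | InFamily g N f}.ncard : ℝ)) := by
  have hh : ∀ (M : ℕ) (f : k[X][X]), HasHeight g M f ↔ Pool.Agent.N352.PJ.Ht g M f := fun M f =>
    ⟨fun h => ⟨h.monic, h.degree, h.trace, h.height⟩, fun h => ⟨h.mon, h.deg, h.tr, h.ht⟩⟩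
  have hI : ∀ (N : ℕ) (f : k[X][X]), InFamily g N f ↔ Run7.h886.TG.InFam g N f := fun N f =>
    ⟨fun h => ⟨(hh _ _).1 h.toHasHeight, h.inert, h.squarefree⟩,
      fun h => ⟨(hh _ _).2 h.ht, h.inert, h.sq⟩⟩
  refine ⟨fun N f hN hf => ?_, fun hp => ?_⟩
  · obtain ⟨c, hc, h⟩ := Run7.h886.TG.tw_all K h2 hg hN ((hI N f).1 hf)
    refine ⟨c, hc, ?_⟩
    filter_upwards [h] with m hm u hu
    refine (hm u hu).trans ?_
    have hfin : (GoodTwists K g f u m).Finite :=
      (Run7.h886.TG.fin_deg m).subset fun D hD => hD.2.1
    have hsub : Run7.h886.TG.GoodTw K g f u m ⊆ GoodTwists K g f u m :=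
      fun D hD => ⟨hD.1, hD.2.1, hD.2.2.1, hD.2.2.2.1, hD.2.2.2.2.2.1, hD.2.2.2.2.2.2.1⟩
    exact_mod_cast Set.ncard_le_ncard hsub hfin
  · obtain ⟨c, hc, h⟩ := Run7.h886.TG.fam_pos (k := k) g hg hp
    refine ⟨c, hc, ?_⟩
    filter_upwards [h] with N hN
    have e1 : {f : k[X][X] | HasHeight g (2 * N) f} =
        {f : k[X][X] | Pool.Agent.N352.PJ.Ht g (2 * N) f} := Set.ext fun f => hh _ _
    have e2 : {f : k[X][X] | InFamily g N f} = {f : k[X][X] | Run7.h886.TG.InFam g N f} :=
      Set.ext fun f => hI _ _
    rw [e1, e2]
    exact hN

end Pool.Agent.Results.MP_72e2e6_nt.PositiveProportionOfTwists
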