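import Pool.Agent.Run7.h886.TG.Port

/-!
# The Tate conjecture for a positive proportion of all the twists `D(t) y ^ 2 = f(x, t)` of a hyperelliptic surface

Let `k` be a finite field of odd characteristic with `q` elements, `g ≥ 1`, and let
`f = x ^ (2 g + 1) + f_{2 g - 1} x ^ (2 g - 1) + ... + f_0` be a polynomial over `k[t]` with
`deg f_j ≤ 2 N (2 g + 1 - j)`, `N ≥ 1`, such that the discriminant of `f` (with respect to `x`) is a squarefree
polynomial in `t` and the polynomial over `k` formed by the coefficients of `t ^ (2 N (2 g + 1 - j))` in the `f_j` is
irreducible. If the characteristic is larger than `2 g + 1`, these `f` are a positive proportion of all the `f` with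
`deg f_j ≤ 2 N (2 g + 1 - j)`. For a squarefree `D` in `k[t]` let `Y_D` be a smooth projective model over `k` of the
surface `D(t) y ^ 2 = f(x, t)`, fibred over the line in curves of genus `g`, and let `J_D` be the Jacobian of its
generic fibre over `K = k(t)`. The surfaces `Y_D` are all the quadratic twists of `Y_1`, their geometric genus
tends to infinity with the degree of `D`.

**Theorem.** There is `c > 0` such that for all large `m` and all `u ≠ 0` in `k` at least `c q ^ m` of the `q ^ m`
polynomials `D` of degree `m` with leading coefficient `u` are squarefree and prime to the discriminant of `f`, and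
for `J = J_D` the 2-primary part of the Tate-Shafarevich group of `J` over `K` is zero and multiplication by two is
bijective on `J(K)`.

**Consequence** (not formalised). For these `D`, a positive proportion of ALL twists in the natural ordering by the
degree over a fixed finite field, the Tate conjecture of the question holds for `Y = Y_D` and every prime `ℓ`: the
Brauer group of `Y` is finite as the 2-primary part of the Tate-Shafarevich group is finite (Artin and Tate,
Milne, Gordon, Liu, Lorenzini and Raynaud; Kato and Trihan), so the classes of the divisors span the invariants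
and their dimension is the multiplicity of `q` as a root of `Q_2(Y, T)`. As `J(K)` is finite, this dimension is
two plus the number of the components of the reducible fibres which do not meet the section at infinity.

The starting results on this page are about other surfaces (fibrations with rational points of order two and
superelliptic surfaces with many automorphisms). Here the general fibre has only the hyperelliptic
involution, the Galois group of `f` over `k'(t)`, `k'` the algebraic closure of `k`, is the symmetric group, and
almost nothing is special about the surface.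

`J(F)` is the Picard group of the affine coordinate ring `F[x, y] / (y ^ 2 - F(x))`, because the only point at
infinity of the curve is rational, and the Tate-Shafarevich group is given by continuous cocycles of the absolute
Galois group of `K` with values in `J(K^sep)` (`Pool/Agent/N874/Jac/Def.lean`). The curve `D y ^ 2 = f(x)` has the
equation `y ^ 2 = F(x)` with `F = D ^ (2 g + 1) f(x / D) = f.scaleRoots D`.

This is the theorem of project TG (helper784, with parts by helpers 68, 81, 286, 382, 646, 688, 711, 760, 779, 781,
811, 886, 908, 973, and the libraries TS (helper875), PJ and JB (helper352) and PP (helper874)) for the objects of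
this page, see `Results/MP_60d5ce_nt/PositiveProportionOfTwists.lean`, where the proof is described: one more prime
`Q` in `D` changes the 2-Selmer group by a reciprocity law, the average of its order over the next prime is
estimated by character sums over the curves whose points are the factorisations of `f` at `t`, and the last primes
are chosen to kill the group.
-/

set_option autoImplicit false
set_option linter.all false

open Polynomial Filter IsDedekindDomain
open scoped Classical

namespace Pool.Agent.Results.MP_8ac872_ag.PositiveProportionOfTwists

open Pool.Agent.N874.Jac (J Cochain Cocycle Coboundary power TrivialAtPrimes)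

/-- Multiplication by two is bijective on `J(K)`, `J` the Jacobian of `y ^ 2 = F(x)` (written
multiplicatively), and every element of 2-power order of `H ^ 1 (K, J)` which is zero over the completions of `K` at
all maximal ideals of the Dedekind ring `R` is zero: every continuous cocycle `c` of the absolute Galois group of
`K` with values in `J(K^sep)` whose class is zero over these completions and whose power `c ^ (2 ^ n)` is a coboundary
is a coboundary. -/
def NoTwoPart (R : Type) {K : Type} [Field K] [CommRing R] [IsDedekindDomain R] [Algebra R K]
    [IsFractionRing R K] (F : K[X]) : Prop :=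
  (Function.Bijective fun P : J F K => P ^ 2) ∧
    ∀ (c : Cochain F) (n : ℕ), Cocycle c → TrivialAtPrimes R c → Coboundary (power c (2 ^ n)) →
      Coboundary c

section defs

variable {k : Type} [Field k]

/-- The discriminant of the monic polynomial `f` of degree `2 g + 1` in `x` over `k[t]`, up to the sign: the
resultant of `f` and its derivative. -/
noncomputable def discriminant (g : ℕ) (f : k[X][X]) : k[X] :=
  f.resultant (derivative f) (2 * g + 1) (2 * g)

/-- `f = x ^ (2 g + 1) + f_{2 g - 1} x ^ (2 g - 1) + ... + f_0` with `deg f_j ≤ M (2 g + 1 - j)`. -/
structure HasHeight (g M : ℕ) (f : k[X][X]) : Prop where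
  monic : f.Monic
  degree : f.natDegree = 2 * g + 1
  trace : f.coeff (2 * g) = 0
  height : ∀ j ≤ 2 * g, (f.coeff j).natDegree ≤ M * (2 * g + 1 - j)

/-- The reduction of `f` at infinity, the polynomial `x ^ (2 g + 1) + ∑ r_j x ^ j` over `k` where `r_j` is the
coefficient of `t ^ (M (2 g + 1 - j))` in `f_j`. -/
noncomputable def atInfinity (g M : ℕ) (f : k[X][X]) : k[X] :=
  X ^ (2 * g + 1) + ∑ j ∈ Finset.range (2 * g + 1), C ((f.coeff j).coeff (M * (2 * g + 1 - j))) * X ^ j

/-- The family: squarefree discriminant, irreducible reduction at infinity. -/
structure InFamily (g N : ℕ) (f : k[X][X]) : Prop extends HasHeight g (2 * N) f where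
  inert : Irreducible (atInfinity g (2 * N) f)
  squarefree : Squarefree (discriminant g f)

variable (K : Type) [Field K] [Algebra k[X] K] [IsFractionRing k[X] K]

/-- The monic equation `y ^ 2 = D ^ (2 g + 1) f(x / D)` of the quadratic twist `D y ^ 2 = f(x)` over
`K = k(t)`. -/
noncomputable def twist (f : k[X][X]) (D : k[X]) : K[X] := (f.scaleRoots D).map (algebraMap k[X] K)

/-- The polynomials `D` of degree `m` with leading coefficient `u` which are squarefree and prime to the
discriminant of `f` and for which the Jacobian `J` of the twist of `y ^ 2 = f(x)` by `D` is such that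
multiplication by two is bijective on `J(K)` and the 2-primary part of the Tate-Shafarevich group is zero. -/
def GoodTwists (g : ℕ) (f : k[X][X]) (u : k) (m : ℕ) : Set k[X] :=
  {D | D.leadingCoeff = u ∧ D.natDegree = m ∧ Squarefree D ∧ IsCoprime D (discriminant g f) ∧
    NoTwoPart k[X] (twist K f D)}

end defs

/-- **Theorem.** Let `k` be a finite field of odd characteristic with `q` elements, `K = k(t)`, `g ≥ 1`.
(1) For every `f` of the family (monic of degree `2 g + 1` over `k[t]`, `f_{2 g} = 0`,
`deg f_j ≤ 2 N (2 g + 1 - j)`, `N ≥ 1`, with squarefree discriminant and irreducible reduction at infinity) there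
is `c > 0` such that for all large `m` and all `u ≠ 0` in `k` at least `c q ^ m` of the `q ^ m` polynomials `D` over
`k` of degree `m` with leading coefficient `u` are squarefree, prime to the discriminant, and the Jacobian `J` of
`D y ^ 2 = f(x)` over `K` is such that multiplication by two is bijective on `J(K)` and the 2-primary part of the
Tate-Shafarevich group of `J` over `K` is zero.
(2) If the characteristic is larger than `2 g + 1`, a positive proportion of all `f` with
`deg f_j ≤ 2 N (2 g + 1 - j)` belongs to the family. -/
theorem result (g : ℕ) (hg : 1 ≤ g) (k : Type) [Field k] [Finite k] (h2 : (2 : k) ≠ 0)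
    (K : Type) [Field K] [Algebra k[X] K] [IsFractionRing k[X] K] :
    (∀ (N : ℕ) (f : k[X][X]), 1 ≤ N → InFamily g N f →
      ∃ c : ℝ, 0 < c ∧ ∀ᶠ m : ℕ in atTop, ∀ u : k, u ≠ 0 →
        c * (Nat.card k : ℝ) ^ m ≤ ((GoodTwists K g f u m).ncard : ℝ)) ∧
    (((2 * g + 1).factorial : k) ≠ 0 → ∃ c : ℝ, 0 < c ∧ ∀ᶠ N : ℕ in atTop,
      0 < {f : k[X][X] | HasHeight g (2 * N) f}.ncard ∧
      c * ({f : k[X][X] | HasHeight g (2 * N) f}.ncard : ℝ) ≤
        ({f : k[X][X] | InFamily g N f}.ncard : ℝ)) := by
  have hh : ∀ (M : ℕ) (f : k[X][X]), HasHeight g M f ↔ Pool.Agent.N352.PJ.Ht g M f := fun M f =>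
    ⟨fun h => ⟨h.monic, h.degree, h.trace, h.height⟩, fun h => ⟨h.mon, h.deg, h.tr, h.ht⟩⟩
  have hI : ∀ (N : ℕ) (f : k[X][X]), InFamily g N f ↔ Run7.h886.TG.InFam g N f := fun N f =>
    ⟨fun h => ⟨(hh _ _).1 h.toHasHeight, h.inert, h.squarefree⟩,
      fun h => ⟨(hh _ _).2 h.ht, h.inert, h.sq⟩⟩
  refine ⟨fun N f hN hf => ?_, fun hp => ?_⟩
  · obtain ⟨c, hc, h⟩ := Run7.h886.TG.tw_all K h2 hg hN ((hI N f).1 hf)
    refine ⟨c, hc, ?_⟩
    filter_upwards [h] with m hm u hu
    refine (hm u hu).trans ?_
    have hfin : (GoodTwists K g f u m).Finite :=
      (Run7.h886.TG.fin_deg m).subset fun D hD => hD.2.1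
    have hsub : Run7.h886.TG.GoodTw K g f u m ⊆ GoodTwists K g f u m :=
      fun D hD => ⟨hD.1, hD.2.1, hD.2.2.1, hD.2.2.2.1, hD.2.2.2.2.2.1, hD.2.2.2.2.2.2.1⟩
    exact_mod_cast Set.ncard_le_ncard hsub hfin
  · obtain ⟨c, hc, h⟩ := Run7.h886.TG.fam_pos (k := k) g hg hp
    refine ⟨c, hc, ?_⟩
    filter_upwards [h] with N hN
    have e1 : {f : k[X][X] | HasHeight g (2 * N) f} =
        {f : k[X][X] | Pool.Agent.N352.PJ.Ht g (2 * N) f} := Set.ext fun f => hh _ _
    have e2 : {f : k[X][X] | InFamily g N f} = {f : k[X][X] | Run7.h886.TG.InFam g N f} :=
      Set.ext fun f => hI _ _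
    rw [e1, e2]
    exact hN

end Pool.Agent.Results.MP_8ac872_ag.PositiveProportionOfTwists
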